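import Pool.Agent.helper27.PC2.Stmt2

/-!
Module COL: the coordinates of `Rib w b u` at the one column states.
-/

set_option autoImplicit false

namespace Pool.Agent.helper27.PC

open Finset

theorem COL_mem {n i k : ℕ} {c : Bool} {p : ℕ} :
    (c, p) ∈ col n i k ↔ p ≤ n ∧ p ≠ n - (if c then i else k) := by
  unfold col
  rw [mem_union, mem_image, mem_image]
  cases c
  · simp only [mem_erase, mem_range, Prod.mk.injEq, Bool.false_eq_true, if_false, Bool.true_eq_false,
      false_and, and_false, exists_false, true_and, exists_eq_right, false_or]
    omega
  · simp only [mem_erase, mem_range, Prod.mk.injEq, if_true, Bool.false_eq_true,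
      false_and, and_false, exists_false, true_and, exists_eq_right, or_false]
    omega

theorem COL_back {b : ℕ} {S : St} {l : Lab} (hl : l ∈ addable b S) :
    S = insert l ((move b S l).erase (up b l)) := by
  unfold addable at hl
  rw [mem_filter] at hl
  unfold move
  rw [erase_insert (by rw [mem_erase]; exact fun h => hl.2 h.2), insert_erase hl.1]

theorem COL_add {n i k b : ℕ} (hb : 1 ≤ b) (hi : i ≤ n) (hk : k ≤ n) {S : St} {c : Bool} {p : ℕ} :
    ((c, p) ∈ addable b S ∧ move b S (c, p) = col n i k) ↔
      ((c, p) = (true, n - i) ∧ b ≤ i ∧ S = col n (i - b) k) ∨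
        ((c, p) = (false, n - k) ∧ b ≤ k ∧ S = col n i (k - b)) := by
  constructor
  · rintro ⟨h1, h2⟩
    have h3 := COL_back h1
    rw [h2] at h3
    have h4 : (c, p) ∉ col n i k := by
      rw [← h2]
      unfold move up
      rw [mem_insert, mem_erase]
      simp only [Prod.mk.injEq, true_and, ne_eq, not_true_eq_false, false_and, or_false]
      omega
    have h5 : (c, p + b) ∈ col n i k := by
      rw [← h2]
      unfold move up
      exact mem_insert_self _ _
    rw [COL_mem] at h4 h5
    cases c
    · simp only [Bool.false_eq_true, if_false] at h4 h5
      right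
      refine ⟨by simp only [Prod.mk.injEq, true_and]; omega, by omega, ?_⟩
      rw [h3]
      ext ⟨c', q⟩
      unfold up
      rw [mem_insert, mem_erase, COL_mem, COL_mem]
      cases c'
      · simp only [Prod.mk.injEq, true_and, ne_eq, Bool.false_eq_true, if_false]
        omega
      · simp only [Prod.mk.injEq, Bool.true_eq_false, false_and, ne_eq, not_false_eq_true, true_and,
          if_true, false_or]
    · simp only [if_true] at h4 h5
      left
      refine ⟨by simp only [Prod.mk.injEq, true_and]; omega, by omega, ?_⟩
      rw [h3]
      ext ⟨c', q⟩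
      unfold up
      rw [mem_insert, mem_erase, COL_mem, COL_mem]
      cases c'
      · simp only [Prod.mk.injEq, Bool.false_eq_true, false_and, ne_eq, not_false_eq_true, true_and,
          if_false, false_or]
      · simp only [Prod.mk.injEq, true_and, ne_eq, if_true]
        omega
  · rintro (⟨h1, h2, h3⟩ | ⟨h1, h2, h3⟩)
    · rw [h1]
      constructor
      · unfold addable up
        rw [mem_filter, h3, COL_mem, COL_mem]
        simp only [if_true]
        omega
      · ext ⟨c', q⟩
        unfold move up
        rw [mem_insert, mem_erase, h3, COL_mem, COL_mem]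
        cases c'
        · simp only [Prod.mk.injEq, Bool.false_eq_true, false_and, ne_eq, not_false_eq_true, true_and,
            if_false, false_or]
        · simp only [Prod.mk.injEq, true_and, ne_eq, if_true]
          omega
    · rw [h1]
      constructor
      · unfold addable up
        rw [mem_filter, h3, COL_mem, COL_mem]
        simp only [Bool.false_eq_true, if_false]
        omega
      · ext ⟨c', q⟩
        unfold move up
        rw [mem_insert, mem_erase, h3, COL_mem, COL_mem]
        cases c'
        · simp only [Prod.mk.injEq, true_and, ne_eq, Bool.false_eq_true, if_false]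
          omega
        · simp only [Prod.mk.injEq, Bool.true_eq_false, false_and, ne_eq, not_false_eq_true, true_and,
            if_true, false_or]

theorem COL_cnt {n i k b : ℕ} (c : Bool) (hb : b ≤ (if c then i else k)) (hi : i ≤ n) (hk : k ≤ n) :
    cnt (col n (if c then i - b else i) (if c then k else k - b)) (c, n - (if c then i else k)) b
      = b - 1 := by
  unfold cnt
  have h : ((col n (if c then i - b else i) (if c then k else k - b)).filter fun y =>
      y.1 = (c, n - (if c then i else k)).1 ∧ (c, n - (if c then i else k)).2 < y.2 ∧
        y.2 < (c, n - (if c then i else k)).2 + b) =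
      (Finset.Ioo (n - (if c then i else k)) (n - (if c then i else k) + b)).image (fun p => (c, p)) := by
    ext ⟨c', q⟩
    rw [mem_filter, COL_mem, mem_image]
    simp only [mem_Ioo, Prod.mk.injEq]
    constructor
    · rintro ⟨h1, h2, h3, h4⟩
      exact ⟨q, ⟨h3, h4⟩, h2.symm, rfl⟩
    · rintro ⟨q', ⟨h3, h4⟩, h1, h2⟩
      subst h1 h2
      refine ⟨?_, rfl, h3, h4⟩
      cases c
      · simp only [Bool.false_eq_true, if_false] at *
        omega
      · simp only [if_true] at *
        omega
  rw [h, card_image_of_injective _ (Prod.mk_right_injective c), Nat.card_Ioo]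
  omega

theorem COL_ite {R : Type} [CommRing R] (P Q : Prop) [Decidable P] [Decidable Q] (c x : R) :
    c * (if P ∧ Q then x else 0) = if P then x * (if Q then c else 0) else 0 := by
  by_cases hP : P
  · by_cases hQ : Q
    · rw [if_pos ⟨hP, hQ⟩, if_pos hP, if_pos hQ, mul_comm]
    · rw [if_neg (fun h => hQ h.2), if_pos hP, if_neg hQ]
      simp
  · rw [if_neg (fun h => hP h.1), if_neg hP, mul_zero]

theorem COL : COL_stmt := by
  classical
  intro R _ w n b i k u hb hi hk
  induction u using Finsupp.induction_linear with
  | zero => simp
  | add u u' h h' =>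
    rw [map_add, Finsupp.add_apply, h, h', Finsupp.add_apply, Finsupp.add_apply]
    split_ifs <;> ring
  | single S c =>
    have key : ∀ l : Lab, (if l ∈ addable b S then
        (if move b S l = col n i k then (-1) ^ cnt S l b * w l else 0) else (0 : R)) =
        (if l = (true, n - i) then (if b ≤ i ∧ S = col n (i - b) k then
          (-1) ^ (b - 1) * w (true, n - i) else 0) else 0) +
        (if l = (false, n - k) then (if b ≤ k ∧ S = col n i (k - b) then
          (-1) ^ (b - 1) * w (false, n - k) else 0) else 0) := by
      rintro ⟨e, p⟩
      have h := COL_add (S := S) (c := e) (p := p) hb hi hk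
      by_cases h1 : (e, p) ∈ addable b S ∧ move b S (e, p) = col n i k
      · rw [if_pos h1.1, if_pos h1.2]
        rcases h.1 h1 with ⟨h2, h3, h4⟩ | ⟨h2, h3, h4⟩
        · rw [h2, if_pos rfl, if_pos ⟨h3, h4⟩, if_neg (by simp), add_zero, h4]
          have := COL_cnt (n := n) (i := i) (k := k) (b := b) true (by simpa using h3) hi hk
          simp only [if_true] at this
          rw [this]
        · rw [h2, if_neg (by simp), if_pos rfl, if_pos ⟨h3, h4⟩, zero_add, h4]
          have := COL_cnt (n := n) (i := i) (k := k) (b := b) false (by simpa using h3) hi hk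
          simp only [Bool.false_eq_true, if_false] at this
          rw [this]
      · have h2 : (if (e, p) ∈ addable b S then
            (if move b S (e, p) = col n i k then (-1) ^ cnt S (e, p) b * w (e, p) else 0)
              else (0 : R)) = 0 := by
          split_ifs with h3 h4
          · exact absurd ⟨h3, h4⟩ h1
          · rfl
          · rfl
        rw [h2]
        have h3 := not_or.1 (fun h' => h1 (h.2 h'))
        have h4 : (if (e, p) = (true, n - i) then (if b ≤ i ∧ S = col n (i - b) k then
          (-1) ^ (b - 1) * w (true, n - i) else 0) else (0 : R)) = 0 := by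
          split_ifs with h5 h6
          · exact absurd ⟨h5, h6⟩ h3.1
          · rfl
          · rfl
        have h5 : (if (e, p) = (false, n - k) then (if b ≤ k ∧ S = col n i (k - b) then
          (-1) ^ (b - 1) * w (false, n - k) else 0) else (0 : R)) = 0 := by
          split_ifs with h5 h6
          · exact absurd ⟨h5, h6⟩ h3.2
          · rfl
          · rfl
        rw [h4, h5, add_zero]
    unfold Rib
    rw [Finsupp.linearCombination_single, Finsupp.smul_apply, Finsupp.finsetSum_apply, smul_eq_mul]
    have h0 : ∑ l ∈ addable b S, (Finsupp.single (move b S l) ((-1) ^ cnt S l b * w l) : St →₀ R)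
        (col n i k) = ∑ l ∈ addable b S ∪ {(true, n - i), (false, n - k)},
          (if l ∈ addable b S then
            (if move b S l = col n i k then (-1) ^ cnt S l b * w l else 0) else (0 : R)) := by
      rw [Finset.sum_ite_mem, Finset.union_inter_cancel_left]
      refine Finset.sum_congr rfl fun l _ => ?_
      rw [Finsupp.single_apply]
    have hA : ((true, n - i) : Lab) ∈ addable b S ∪ {(true, n - i), (false, n - k)} := by
      rw [mem_union]; right; simp
    have hB : ((false, n - k) : Lab) ∈ addable b S ∪ {(true, n - i), (false, n - k)} := by
      rw [mem_union]; right; simp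
    rw [h0, Finset.sum_congr rfl (fun l _ => key l), Finset.sum_add_distrib, Finset.sum_ite_eq',
      Finset.sum_ite_eq', if_pos hA, if_pos hB, Finsupp.single_apply,
      Finsupp.single_apply, mul_add, COL_ite, COL_ite]

end Pool.Agent.helper27.PC
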